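import Pool.Agent.H654R2.MED.Final

/-!
# M-ETERNAL DOMINATION is EXPTIME-hard

`MED` is the decision problem: given the adjacency matrix of a finite simple graph `G` and a number
`k` (in binary), is the m-eternal domination number of `G` at most `k`?

The reduction is from acceptance of a stack machine in time `2 ^ p n`.  Its space-time table is
checked by a two-sided constraint system: the first side is a single cell of the table (with the
binary digits of its row and column), the second side is a window of five cells; the attacker
chooses which of the two sides is held and which slot of the window the cell is compared with.
Every bit is held by one guard, confined to a private region of the graph; a clock guard changes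
between two phases, one further guard holds the label, and attacks on clause vertices force the
clauses.  Held bits cannot change, since only the label guard can interfere and every bit is held
twice.
-/

namespace Pool.Agent.Results.MP_7f5e5b_lc.EternalHard

open Pool.Agent.NPC Pool.Agent.H654R2.MED

/-- **M-ETERNAL DOMINATION is EXPTIME-hard**: every language decided by a Turing machine in time
`2 ^ p n`, `p` a polynomial, has a polynomial-time many-one reduction to it. Hence it is in
`PSPACE` only if `EXPTIME ⊆ PSPACE`. -/
theorem result : EXPTIMEHard (lang MED) ∧
    (InPSPACE (lang MED) → ∀ L, InEXPTIME L → InPSPACE L) :=
  ⟨Pool.Agent.NPC.H654M.med_hard, Pool.Agent.NPC.H654M.pspace_collapse⟩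

end Pool.Agent.Results.MP_7f5e5b_lc.EternalHard
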